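import Pool.Graph.R_seed8.H125R2.ET.T1
import Pool.Graph.R_seed8.H125R2.ET.T2
import Pool.Graph.R_seed8.H125R2.ET.T3
import Pool.Graph.R_seed8.H125R2.ET.T4

/-!
# Base sets of Ruzsa type whose short windows have boundedly many elements

The digit sets of `Pool.Agent.H125R2.ET` (three parabolas modulo a prime `p`), with one more
property: every interval of length `2 p` contains boundedly many elements.
-/

set_option autoImplicit false

namespace Pool.Agent.H601.N1

open Finset Pool.Agent.H125R2.ET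

/-- the local digit set, with small fibres over the second coordinate (the construction is the one
of `Pool.Agent.H125R2.ET.local_set`) -/
theorem local_set' (p : ℕ) (hpp : p.Prime) (hp : 7 < p) :
    ∃ E : Finset (ℕ × ℕ), IsLocal p E ∧ ∀ t, (E.filter (fun e => e.2 = t)).card ≤ 6 := by
  classical
  have : Fact p.Prime := ⟨hpp⟩
  obtain ⟨k, l, hk, hl, hkl, h1k, h1l, hq⟩ := local_quad p hp (exists_z p hp)
  have h2 : (2 : ZMod p) ≠ 0 := by
    intro h0
    have h3 : ((2 : ℕ) : ZMod p) = 0 := by exact_mod_cast h0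
    rw [ZMod.natCast_eq_zero_iff] at h3
    have := Nat.le_of_dvd (by norm_num) h3
    omega
  set K : Finset (ZMod p) := {1, k, l} with hK
  have hKcard : K.card ≤ 3 := card_le_three
  have hKne : ∀ c ∈ K, c ≠ 0 := by
    intro c hc
    rw [hK, mem_insert, mem_insert, mem_singleton] at hc
    rcases hc with rfl | rfl | rfl
    · exact one_ne_zero
    · exact hk
    · exact hl
  have hKsum : ∀ c ∈ K, ∀ d ∈ K, c + d ≠ 0 := by
    intro c hc d hd
    rw [hK, mem_insert, mem_insert, mem_singleton] at hc hd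
    have hcc : ∀ c : ZMod p, c ≠ 0 → c + c ≠ 0 := by
      intro c hc h0
      rw [← two_mul] at h0
      exact (mul_ne_zero h2 hc) h0
    rcases hc with rfl | rfl | rfl <;> rcases hd with rfl | rfl | rfl
    · exact hcc 1 one_ne_zero
    · exact h1k
    · exact h1l
    · rwa [add_comm]
    · exact hcc _ hk
    · exact hkl
    · rwa [add_comm]
    · rwa [add_comm]
    · exact hcc _ hl
  set A : ZMod p → Finset (ℕ × ℕ) := fun c =>
    (univ : Finset (ZMod p)).image (fun x => (x.val, (c * x ^ 2).val)) with hA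
  have hmemA : ∀ c x, (x.val, (c * x ^ 2).val) ∈ A c := fun c x =>
    mem_image_of_mem _ (mem_univ x)
  have hval : ∀ x : ZMod p, ((x.val : ℕ) : ZMod p) = x := fun x => ZMod.natCast_zmod_val x
  refine ⟨K.biUnion A, ⟨?_, ?_, ?_, ?_⟩, ?_⟩
  · intro e he
    rw [mem_biUnion] at he
    obtain ⟨c, -, hc⟩ := he
    rw [hA, mem_image] at hc
    obtain ⟨x, -, rfl⟩ := hc
    exact ⟨ZMod.val_lt _, ZMod.val_lt _⟩
  · refine (card_biUnion_le_card_mul K A p ?_).trans (Nat.mul_le_mul_right p hKcard)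
    intro c _
    refine card_image_le.trans ?_
    rw [card_univ, ZMod.card]
  · intro s t
    have key : ∀ c ∈ K, ∀ d ∈ K, ∀ x y : ZMod p, x + y = (s : ZMod p) →
        c * x ^ 2 + d * y ^ 2 = (t : ZMod p) → ∃ e ∈ K.biUnion A, ∃ f ∈ K.biUnion A,
          e.1 + f.1 ≡ s [MOD p] ∧ e.2 + f.2 ≡ t [MOD p] := by
      intro c hc d hd x y h3 h4
      refine ⟨(x.val, (c * x ^ 2).val), mem_biUnion.2 ⟨c, hc, hmemA c x⟩,
        (y.val, (d * y ^ 2).val), mem_biUnion.2 ⟨d, hd, hmemA d y⟩, ?_, ?_⟩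
      · rw [← ZMod.natCast_eq_natCast_iff]
        push_cast
        rw [hval, hval, h3]
      · rw [← ZMod.natCast_eq_natCast_iff]
        push_cast
        rw [hval, hval, h4]
    have hK1 : (1 : ZMod p) ∈ K := by rw [hK]; simp
    have hKk : k ∈ K := by rw [hK]; simp
    have hKl : l ∈ K := by rw [hK]; simp
    rcases hq (s : ZMod p) (t : ZMod p) with ⟨x, y, h3, h4⟩ | ⟨x, y, h3, h4⟩
    · exact key 1 hK1 1 hK1 x y h3 (by rw [one_mul, one_mul]; exact h4)
    · exact key k hKk l hKl x y h3 h4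
  · intro s t
    have hsub : ((K.biUnion A) ×ˢ (K.biUnion A)).filter (fun x => x.1.1 + x.2.1 ≡ s [MOD p] ∧
        x.1.2 + x.2.2 ≡ t [MOD p]) ⊆ (K ×ˢ K).biUnion (fun cd =>
          ((univ : Finset (ZMod p)).filter (fun x => cd.1 * x ^ 2 +
            cd.2 * ((s : ZMod p) - x) ^ 2 = (t : ZMod p))).image
            (fun x => ((x.val, (cd.1 * x ^ 2).val),
              (((s : ZMod p) - x).val, (cd.2 * ((s : ZMod p) - x) ^ 2).val)))) := by
      rintro ⟨e, f⟩ hef
      rw [mem_filter, mem_product, mem_biUnion, mem_biUnion] at hef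
      obtain ⟨⟨⟨c, hc, he⟩, ⟨d, hd, hf⟩⟩, h3, h4⟩ := hef
      rw [hA, mem_image] at he hf
      obtain ⟨x, -, hx⟩ := he
      obtain ⟨y, -, hy⟩ := hf
      simp only at hx hy h3 h4
      rw [← hx, ← hy] at h3 h4
      rw [← ZMod.natCast_eq_natCast_iff] at h3 h4
      push_cast at h3 h4
      rw [hval, hval] at h3 h4
      have hyx : y = (s : ZMod p) - x := by rw [← h3]; ring
      rw [mem_biUnion]
      refine ⟨(c, d), mem_product.2 ⟨hc, hd⟩, ?_⟩
      rw [mem_image]
      refine ⟨x, ?_, ?_⟩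
      · rw [mem_filter]
        refine ⟨mem_univ _, ?_⟩
        rw [← hyx]
        exact h4
      · simp only
        rw [← hyx, hx, hy]
    refine (card_le_card hsub).trans ?_
    refine (card_biUnion_le_card_mul (K ×ˢ K) _ 2 ?_).trans ?_
    · rintro ⟨c, d⟩ hcd
      rw [mem_product] at hcd
      exact card_image_le.trans (t3_roots c d _ _ (hKsum c hcd.1 d hcd.2))
    · rw [card_product]
      have := Nat.mul_le_mul hKcard hKcard
      omega
  · intro t
    have hsub : (K.biUnion A).filter (fun e => e.2 = t) ⊆ K.biUnion (fun c =>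
        ((univ : Finset (ZMod p)).filter (fun x => c * x ^ 2 +
          0 * ((0 : ZMod p) - x) ^ 2 = (t : ZMod p))).image
            (fun x => (x.val, (c * x ^ 2).val))) := by
      intro e he
      rw [mem_filter, mem_biUnion] at he
      obtain ⟨⟨c, hc, he⟩, ht⟩ := he
      rw [hA, mem_image] at he
      obtain ⟨x, -, hx⟩ := he
      rw [mem_biUnion]
      refine ⟨c, hc, mem_image.2 ⟨x, ?_, hx⟩⟩
      rw [mem_filter]
      refine ⟨mem_univ _, ?_⟩
      rw [zero_mul, add_zero, ← ht, ← hx]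
      exact (hval _).symm
    refine (card_le_card hsub).trans ?_
    refine (card_biUnion_le_card_mul K _ 2 ?_).trans (by omega)
    intro c hc
    exact card_image_le.trans (t3_roots c 0 _ _ (by rw [add_zero]; exact hKne c hc))

/-- a base set all whose windows of length `p` have at most `C` elements -/
structure IsWBase (C p : ℕ) (D : Finset ℕ) : Prop where
  base : IsBase C p D
  wnd : ∀ y, (D.filter (fun a => y ≤ a ∧ a < y + p)).card ≤ C

theorem wnd_aux (J C p : ℕ) (hC : (1 + 3 * J) * 12 ≤ C) (hp : 7 < p) (E : Finset (ℕ × ℕ))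
    (hE : IsLocal p E) (hfib : ∀ t, (E.filter (fun e => e.2 = t)).card ≤ 6) (y : ℕ) :
    (((T4.Sft J p ×ˢ E).image (fun x => T4.val p x.1 x.2)).filter
      (fun a => y ≤ a ∧ a < y + p)).card ≤ C := by
  have hp0 : 0 < p := by omega
  have hsub : ((T4.Sft J p ×ˢ E).image (fun x => T4.val p x.1 x.2)).filter
      (fun a => y ≤ a ∧ a < y + p) ⊆ (T4.Sft J p).biUnion (fun σ =>
        ((E.filter (fun e => e.2 = (y - p ^ 2 - σ) / (2 * p))) ∪
          (E.filter (fun e => e.2 = (y - p ^ 2 - σ) / (2 * p) + 1))).image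
            (fun e => T4.val p σ e)) := by
    intro a ha
    rw [mem_filter, mem_image] at ha
    obtain ⟨⟨⟨σ, e⟩, hx, rfl⟩, h1, h2⟩ := ha
    rw [mem_product] at hx
    rw [mem_biUnion]
    refine ⟨σ, hx.1, mem_image.2 ⟨e, ?_, rfl⟩⟩
    simp only at h1 h2 hx
    unfold T4.val at h1 h2
    have he := hE.lt e hx.2
    rw [mem_union, mem_filter, mem_filter]
    set z := y - p ^ 2 - σ with hz
    have hz1 : z ≤ e.1 + 2 * p * e.2 := by omega
    have hz2 : e.1 + 2 * p * e.2 < z + 2 * p := by omega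
    have hd := Nat.div_add_mod z (2 * p)
    have hm := Nat.mod_lt z (show 0 < 2 * p by omega)
    have hq1 : z / (2 * p) < e.2 + 1 := by
      rw [Nat.div_lt_iff_lt_mul (by omega)]
      nlinarith
    have hq2 : e.2 < z / (2 * p) + 2 := by
      by_contra hcon
      push Not at hcon
      have : 2 * p * (z / (2 * p) + 2) ≤ 2 * p * e.2 := Nat.mul_le_mul_left _ hcon
      rw [Nat.mul_add] at this
      omega
    rcases (show e.2 = z / (2 * p) ∨ e.2 = z / (2 * p) + 1 by omega) with h | h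
    · exact Or.inl ⟨hx.2, h⟩
    · exact Or.inr ⟨hx.2, h⟩
  refine (card_le_card hsub).trans ?_
  refine (card_biUnion_le_card_mul _ _ 12 ?_).trans ?_
  · intro σ _
    refine card_image_le.trans ((card_union_le _ _).trans ?_)
    have h1 := hfib ((y - p ^ 2 - σ) / (2 * p))
    have h2 := hfib ((y - p ^ 2 - σ) / (2 * p) + 1)
    omega
  · exact (Nat.mul_le_mul_right 12 (T4.card_Sft J p)).trans hC

theorem wbase_aux (J C : ℕ) (hJ : 2 ^ 20 = 2 * J) (h1 : 2 * J + 3 ≤ C) (h2 : (1 + 3 * J) * 3 ≤ C)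
    (h3 : (1 + 3 * J) * (1 + 3 * J) * 18 ≤ C) (h4 : (1 + 3 * J) * 12 ≤ C) (p : ℕ)
    (hpp : p.Prime) (hp : 7 < p) : ∃ D : Finset ℕ, IsWBase C p D := by
  obtain ⟨E, hE, hfib⟩ := local_set' p hpp hp
  exact ⟨_, T4.main J C hJ h1 h2 h3 p hp E hE, wnd_aux J C p h4 hp E hE hfib⟩

theorem exists_wbase : ∃ C : ℕ, 1 ≤ C ∧ ∀ p : ℕ, p.Prime → 7 < p →
    ∃ D : Finset ℕ, IsWBase C p D :=
  ⟨(1 + 3 * 2 ^ 19) * (1 + 3 * 2 ^ 19) * 18, by norm_num, fun p hpp hp =>
    wbase_aux (2 ^ 19) _ (by norm_num) (by norm_num) (by norm_num) le_rfl (by norm_num) p hpp hp⟩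

end Pool.Agent.H601.N1
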