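import Pool.Agent.H601.N1.Step

/-!
# Iteration of the construction
-/

set_option autoImplicit false

namespace Pool.Agent.H601.N1

open Finset Pool.Agent.H125R2.ET Filter

theorem sum_choose (D a N : ℕ) :
    (N - a).choose (D + 1) ≤ ∑ i ∈ range N, (i - a).choose D := by
  induction N with
  | zero => simp
  | succ N ih =>
    rw [sum_range_succ]
    rcases Nat.lt_or_ge N a with h | h
    · rw [show N + 1 - a = 0 by omega, Nat.choose_zero_succ]
      exact Nat.zero_le _
    · rw [show N + 1 - a = (N - a) + 1 by omega, Nat.choose_succ_succ']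
      omega

theorem iterate (C : ℕ) (hC : ∀ p : ℕ, p.Prime → 7 < p → ∃ D : Finset ℕ, IsWBase C p D)
    (hC1 : 1 ≤ C) (R0 : ℕ → ℕ) (hR0 : ∀ W, 1 ≤ R0 W)
    (hbase : ∀ W, ∃ A : Set ℕ, (∀ n, rep A n ≤ R0 W) ∧ ∀ n, 1 ≤ covered A W (8 ^ n)) (D : ℕ) :
    ∀ W : ℕ, ∃ A : Set ℕ, (∀ n, rep A n ≤ (6 * C * C) ^ D * R0 (W + 4 * D)) ∧
      ∃ a : ℕ, ∀ n, (n - a).choose D ≤ covered A W (8 ^ n) := by
  induction D with
  | zero =>
    intro W
    obtain ⟨A, h1, h2⟩ := hbase W
    refine ⟨A, ?_, 0, ?_⟩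
    · intro n
      have := h1 n
      simpa using this
    · intro n
      have := h2 n
      simpa using this
  | succ D ih =>
    intro W
    obtain ⟨T, hT, a, ha⟩ := ih (W + 4)
    obtain ⟨A, hA, k0, hk0⟩ := step C hC T _ hT W
    refine ⟨A, ?_, k0 + a, ?_⟩
    · intro n
      refine (hA n).trans ?_
      set R := (6 * C * C) ^ D * R0 (W + 4 + 4 * D) with hR
      have hR1 : 1 ≤ R := by
        rw [hR]
        exact Nat.mul_pos (by positivity) (hR0 _)
      have e1 : (6 * C * C) ^ (D + 1) * R0 (W + 4 * (D + 1)) = 6 * C * C * R := by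
        rw [hR, pow_succ, show W + 4 * (D + 1) = W + 4 + 4 * D by ring]
        ring
      rw [e1]
      have e2 : 2 * C * (C * R) = 2 * (C * C) * R := by ring
      have e3 : 6 * C * C * R = 6 * (C * C) * R := by ring
      rw [e2, e3]
      nlinarith [Nat.mul_le_mul_left (C * C) hR1]
    · intro n
      refine le_trans ?_ (hk0 n)
      rw [show n - (k0 + a) = n - k0 - a by omega]
      refine (sum_choose D a (n - k0)).trans ?_
      exact sum_le_sum fun i _ => ha i

/-- from powers of `8` to all `K` -/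
theorem growth (f : ℕ → ℕ) (hf : Monotone f) (D a : ℕ)
    (h : ∀ n, (n - a).choose D ≤ f (8 ^ n)) :
    ∃ c : ℝ, 0 < c ∧ ∀ᶠ K : ℕ in atTop, c * Real.log K ^ D ≤ f K := by
  refine ⟨1 / ((D.factorial : ℝ) * 6 ^ D), by positivity, ?_⟩
  filter_upwards [eventually_ge_atTop (8 ^ (2 * (a + D) + 1))] with K hK
  have hK0 : K ≠ 0 := by
    rintro rfl
    have : 0 < 8 ^ (2 * (a + D) + 1) := by positivity
    omega
  set n := Nat.log 8 K with hn
  have h1 : 8 ^ n ≤ K := Nat.pow_log_le_self 8 hK0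
  have h2 : K < 8 ^ (n + 1) := Nat.lt_pow_succ_log_self (by norm_num) K
  have h3 : 2 * (a + D) + 1 ≤ n := by
    have := (Nat.pow_lt_pow_iff_right (by norm_num : 1 < 8)).1 (lt_of_le_of_lt hK h2)
    omega
  have h4 : (n - a).choose D ≤ f K := (h n).trans (hf h1)
  have h5 : ((n - a + 1 - D : ℕ) : ℝ) ^ D ≤ D.factorial * ((n - a).choose D : ℝ) := by
    have := Nat.pow_le_choose (α := ℝ) D (n - a)
    rw [div_le_iff₀ (by positivity)] at this
    rw [mul_comm]
    exact this
  have h6 : Real.log K ≤ 6 * ((n - a + 1 - D : ℕ) : ℝ) := by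
    have g1 : Real.log K ≤ Real.log (8 ^ (n + 1) : ℝ) := by
      apply Real.log_le_log
      · exact_mod_cast Nat.pos_of_ne_zero hK0
      · exact_mod_cast h2.le
    rw [Real.log_pow] at g1
    have g2 : Real.log 8 ≤ 3 := by
      have : Real.log 8 ≤ Real.log (Real.exp 3) := by
        apply Real.log_le_log (by norm_num)
        have h := Real.add_one_le_exp (1 : ℝ)
        have h' : (2 : ℝ) ≤ Real.exp 1 := by linarith
        have : Real.exp 3 = Real.exp 1 ^ 3 := by
          rw [← Real.exp_nat_mul]; norm_num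
        rw [this]
        calc (8 : ℝ) = 2 ^ 3 := by norm_num
          _ ≤ Real.exp 1 ^ 3 := pow_le_pow_left₀ (by norm_num) h' 3
      rwa [Real.log_exp] at this
    have g3 : ((n + 1 : ℕ) : ℝ) ≤ 2 * ((n - a + 1 - D : ℕ) : ℝ) := by
      have : n + 1 ≤ 2 * (n - a + 1 - D) := by omega
      exact_mod_cast this
    have g4 : (0 : ℝ) ≤ ((n + 1 : ℕ) : ℝ) := Nat.cast_nonneg _
    nlinarith
  have h7 : 0 ≤ Real.log K := Real.log_nonneg (by
    have : 1 ≤ K := Nat.pos_of_ne_zero hK0
    exact_mod_cast this)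
  have h8 : Real.log K ^ D ≤ 6 ^ D * (D.factorial * (f K : ℝ)) := by
    calc Real.log K ^ D ≤ (6 * ((n - a + 1 - D : ℕ) : ℝ)) ^ D := pow_le_pow_left₀ h7 h6 D
      _ = 6 ^ D * ((n - a + 1 - D : ℕ) : ℝ) ^ D := by rw [mul_pow]
      _ ≤ 6 ^ D * (D.factorial * ((n - a).choose D : ℝ)) := by
          exact mul_le_mul_of_nonneg_left h5 (by positivity)
      _ ≤ 6 ^ D * (D.factorial * (f K : ℝ)) := by
          apply mul_le_mul_of_nonneg_left _ (by positivity)
          apply mul_le_mul_of_nonneg_left _ (by positivity)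
          exact_mod_cast h4
  rw [div_mul_eq_mul_div, one_mul, div_le_iff₀ (by positivity)]
  linarith

theorem covered_mono (A : Set ℕ) (W : ℕ) : Monotone (covered A W) := by
  classical
  intro K K' h
  rw [covered_eq, covered_eq]
  apply card_le_card
  intro k hk
  rw [mem_filter, mem_range] at hk ⊢
  exact ⟨by omega, hk.2⟩

/-- `x / log x ≤ 22 X / log X` for `log 3 ≤ x ≤ X`, `2 ≤ X` -/
theorem div_log_le (x X : ℝ) (hx : 1.098 ≤ x) (hxX : x ≤ X) (hX : 2 ≤ X) :
    x / Real.log x ≤ 22 * (X / Real.log X) := by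
  have hlX : 0 < Real.log X := Real.log_pos (by linarith)
  have hlx : 1 / 11 * 1 ≤ Real.log x := by
    have h1 : 1 - x⁻¹ ≤ Real.log x := Real.one_sub_inv_le_log_of_pos (by linarith)
    have h2 : x⁻¹ ≤ 1.098⁻¹ := inv_anti₀ (by norm_num) hx
    norm_num at h2 ⊢
    -- 1 - 1/1.098 = 0.0892...
    by_cases hx2 : x ≤ 1.11
    · -- sharper: use log x ≥ 2 (x - 1) / (x + 1)? fall back to the bound by monotonicity
      have h3 : Real.log (1.098 : ℝ) ≤ Real.log x := Real.log_le_log (by norm_num) hx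
      have h4 : (1 : ℝ) / 11 ≤ Real.log 1.098 := by
        have h5 := Real.one_sub_inv_le_log_of_pos (show (0 : ℝ) < 1.098 ^ (1 / 4 : ℝ) by positivity)
        rw [Real.log_rpow (by norm_num)] at h5
        have h6 : (1.098 : ℝ) ^ (1 / 4 : ℝ) ≥ 1.0235 := by
          have : (1.0235 : ℝ) = ((1.0235 : ℝ) ^ (4 : ℕ)) ^ (1 / 4 : ℝ) := by
            rw [← Real.rpow_natCast, ← Real.rpow_mul (by norm_num)]
            norm_num
          rw [this]
          exact Real.rpow_le_rpow (by norm_num) (by norm_num) (by norm_num)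
        have h7 : ((1.098 : ℝ) ^ (1 / 4 : ℝ))⁻¹ ≤ 1.0235⁻¹ := inv_anti₀ (by norm_num) h6
        norm_num at h7 h5 ⊢
        linarith
      norm_num at h4 ⊢
      linarith
    · push Not at hx2
      have h3 : x⁻¹ ≤ 1.11⁻¹ := inv_anti₀ (by norm_num) hx2.le
      norm_num at h3
      linarith
  rw [mul_one] at hlx
  have hlx0 : 0 < Real.log x := by linarith [show (0 : ℝ) < 1 / 11 by norm_num]
  rw [div_le_iff₀ hlx0, ← mul_div_assoc, div_mul_eq_mul_div, le_div_iff₀ hlX]
  rcases le_total (Real.log X) (2 * Real.log x) with h | h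
  · calc x * Real.log X ≤ X * (2 * Real.log x) := by
          apply mul_le_mul hxX h hlX.le (by linarith)
      _ ≤ 22 * X * Real.log x := by nlinarith [mul_pos (show (0 : ℝ) < X by linarith) hlx0]
  · -- `x ^ 2 ≤ X`
    have h1 : x ^ 2 ≤ X := by
      have h2 : Real.log (x ^ 2) ≤ Real.log X := by
        rw [Real.log_pow]
        exact_mod_cast h
      exact (Real.log_le_log_iff (by positivity) (by linarith)).1 h2
    have h3 : Real.log X ≤ 2 * Real.sqrt X := by
      have h4 := Real.log_le_sub_one_of_pos (show 0 < Real.sqrt X from Real.sqrt_pos.2 (by linarith))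
      have h5 : Real.log X = 2 * Real.log (Real.sqrt X) := by
        rw [Real.log_sqrt (by linarith)]; ring
      linarith
    have h6 : x ≤ Real.sqrt X := Real.le_sqrt_of_sq_le h1
    have h7 : Real.sqrt X * Real.sqrt X = X := Real.mul_self_sqrt (by linarith)
    have h8 : 0 ≤ Real.sqrt X := Real.sqrt_nonneg X
    calc x * Real.log X ≤ Real.sqrt X * (2 * Real.sqrt X) :=
          mul_le_mul h6 h3 hlX.le h8
      _ = 2 * (Real.sqrt X * Real.sqrt X) := by ring
      _ = 22 * X * (1 / 11) := by rw [h7]; ring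
      _ ≤ 22 * X * Real.log x := by
          apply mul_le_mul_of_nonneg_left hlx (by linarith)

end Pool.Agent.H601.N1
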