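import Pool.Agent.H601.N1.Step

/-!
# Few covered scales for finite unions of sets with bounded difference functions
-/

set_option autoImplicit false

namespace Pool.Agent.H601.N1

open Finset

/-- every positive difference occurs at most `g` times in `B` -/
def DiffLE (B : Set ℕ) (g : ℕ) : Prop :=
  ∀ d : ℕ, 1 ≤ d → {x : ℕ × ℕ | x.1 ∈ B ∧ x.2 ∈ B ∧ x.1 = x.2 + d}.encard ≤ g

open Classical in
/-- the elements of `B` below `n` -/
noncomputable def below (B : Set ℕ) (n : ℕ) : Finset ℕ := (range n).filter (fun a => a ∈ B)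

theorem mem_below {B : Set ℕ} {n a : ℕ} : a ∈ below B n ↔ a < n ∧ a ∈ B := by
  classical
  unfold below
  rw [mem_filter, mem_range]

/-- pairs of different elements in the same window of length `N` -/
theorem same_window (B : Set ℕ) (g : ℕ) (hB : DiffLE B g) (N n : ℕ) (hN : 0 < N) :
    ((below B n ×ˢ below B n).filter (fun x => x.1 ≠ x.2 ∧ x.1 / N = x.2 / N)).card ≤
      2 * g * N := by
  classical
  have h1 : ∀ d, 1 ≤ d → ((below B n ×ˢ below B n).filter (fun x => x.1 = x.2 + d)).card ≤ g := by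
    intro d hd
    have h2 := hB d hd
    have h3 : (((below B n ×ˢ below B n).filter (fun x => x.1 = x.2 + d) : Finset (ℕ × ℕ)) :
        Set (ℕ × ℕ)).encard ≤ g := by
      refine le_trans (Set.encard_le_encard ?_) h2
      rintro ⟨a, b⟩ h
      rw [mem_coe, mem_filter, mem_product, mem_below, mem_below] at h
      exact ⟨h.1.1.2, h.1.2.2, h.2⟩
    rw [Set.encard_coe_eq_coe_finsetCard] at h3
    exact_mod_cast h3
  have h2 : ∀ d, 1 ≤ d → ((below B n ×ˢ below B n).filter (fun x => x.2 = x.1 + d)).card ≤ g := by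
    intro d hd
    refine le_trans ?_ (h1 d hd)
    apply card_le_card_of_injOn (fun x => (x.2, x.1))
    · rintro ⟨a, b⟩ h
      rw [mem_coe, mem_filter, mem_product] at h ⊢
      exact ⟨⟨h.1.2, h.1.1⟩, h.2⟩
    · rintro ⟨a, b⟩ _ ⟨a', b'⟩ _ h
      simp only [Prod.mk.injEq] at h ⊢
      exact ⟨h.2, h.1⟩
  have hsub : ((below B n ×ˢ below B n).filter (fun x => x.1 ≠ x.2 ∧ x.1 / N = x.2 / N)) ⊆
      (Ico 1 (N + 1)).biUnion (fun d =>
        ((below B n ×ˢ below B n).filter (fun x => x.1 = x.2 + d)) ∪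
        ((below B n ×ˢ below B n).filter (fun x => x.2 = x.1 + d))) := by
    rintro ⟨a, b⟩ h
    rw [mem_filter] at h
    obtain ⟨h3, h4, h5⟩ := h
    simp only at h4 h5
    rw [mem_biUnion]
    have ha := Nat.div_add_mod a N
    have hb := Nat.div_add_mod b N
    have ha' := Nat.mod_lt a hN
    have hb' := Nat.mod_lt b hN
    rw [h5] at ha
    rcases Nat.lt_or_gt_of_ne h4 with hlt | hgt
    · refine ⟨b - a, ?_, ?_⟩
      · rw [mem_Ico]; omega
      · rw [mem_union, mem_filter, mem_filter]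
        exact Or.inr ⟨h3, by simp only; omega⟩
    · refine ⟨a - b, ?_, ?_⟩
      · rw [mem_Ico]; omega
      · rw [mem_union, mem_filter, mem_filter]
        exact Or.inl ⟨h3, by simp only; omega⟩
  refine (card_le_card hsub).trans ?_
  refine (card_biUnion_le_card_mul _ _ (2 * g) ?_).trans ?_
  · intro d hd
    rw [mem_Ico] at hd
    refine (card_union_le _ _).trans ?_
    have := h1 d hd.1
    have := h2 d hd.1
    omega
  · rw [Nat.card_Ico, Nat.add_sub_cancel, mul_comm]

/-- sum of the squares of the numbers of elements in windows -/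
theorem sum_sq_windows (B : Set ℕ) (g : ℕ) (hB : DiffLE B g) (N n J : ℕ) (hN : 0 < N) :
    ∑ j ∈ range J, ((below B n).filter (fun a => a / N = j)).card ^ 2 ≤
      2 * g * N + (below B n).card := by
  classical
  have h1 : ∀ j, ((below B n).filter (fun a => a / N = j)).card ^ 2 =
      ((below B n ×ˢ below B n).filter (fun x => x.1 / N = j ∧ x.2 / N = j)).card := by
    intro j
    rw [pow_two, ← card_product]
    congr 1
    ext ⟨a, b⟩
    rw [mem_product, mem_filter, mem_filter, mem_filter, mem_product]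
    tauto
  rw [sum_congr rfl (fun j _ => h1 j), ← card_biUnion]
  · have hsub : (range J).biUnion (fun j =>
        (below B n ×ˢ below B n).filter (fun x => x.1 / N = j ∧ x.2 / N = j)) ⊆
        ((below B n ×ˢ below B n).filter (fun x => x.1 ≠ x.2 ∧ x.1 / N = x.2 / N)) ∪
          (below B n).image (fun a => (a, a)) := by
      rintro ⟨a, b⟩ h
      rw [mem_biUnion] at h
      obtain ⟨j, -, h⟩ := h
      rw [mem_filter, mem_product] at h
      obtain ⟨⟨ha, hb⟩, h3, h4⟩ := h
      simp only at ha hb h3 h4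
      rw [mem_union, mem_filter, mem_product, mem_image]
      by_cases hab : a = b
      · subst hab
        exact Or.inr ⟨a, ha, rfl⟩
      · exact Or.inl ⟨⟨ha, hb⟩, hab, by simp only; rw [h3, h4]⟩
    refine (card_le_card hsub).trans ((card_union_le _ _).trans ?_)
    exact Nat.add_le_add (same_window B g hB N n hN) card_image_le
  · intro i _ j _ hij
    rw [Function.onFun, disjoint_left]
    rintro ⟨a, b⟩ h h'
    rw [mem_filter] at h h'
    exact hij (h.2.1.symm.trans h'.2.1)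

/-- `F(k)^2 ≤ (4 g + 1) 2 ^ k` -/
theorem below_sq (B : Set ℕ) (g : ℕ) (hB : DiffLE B g) (k : ℕ) :
    (below B (2 ^ k)).card ^ 2 ≤ (4 * g + 1) * 2 ^ k := by
  have h1 := sum_sq_windows B g hB (2 ^ k) (2 ^ k) 1 (by positivity)
  rw [sum_range_one] at h1
  have h2 : (below B (2 ^ k)).filter (fun a => a / 2 ^ k = 0) = below B (2 ^ k) := by
    apply filter_true_of_mem
    intro a ha
    rw [mem_below] at ha
    exact Nat.div_eq_of_lt ha.1
  rw [h2] at h1
  have h3 : 1 ≤ 2 ^ k := Nat.one_le_pow _ _ (by norm_num)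
  set F := (below B (2 ^ k)).card
  have h4 : 2 * F ≤ F ^ 2 + 1 := by nlinarith [sq_nonneg ((F : ℤ) - 1)]
  nlinarith

/-- thick scales -/
def Thick (B : Set ℕ) (M k : ℕ) : Prop := 2 ^ k ≤ M * (below B (2 ^ k)).card ^ 2

open Classical in
/-- few thick scales in `[K + γ, 2 K]` -/
theorem few_thick (B : Set ℕ) (g : ℕ) (hB : DiffLE B g) (M γ : ℕ) (hM : 1 ≤ M)
    (hγ : 4 * (4 * g + 1) * M ≤ 2 ^ γ) (K : ℕ) :
    ((Icc (K + γ) (2 * K)).filter (fun k => Thick B M k)).card ≤ 8 * M * (4 * g + 1) * γ := by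
  set G := 4 * g + 1 with hG
  set Dj : ℕ → ℕ := fun j =>
    ((below B (2 ^ (2 * K))).filter (fun a => a / 2 ^ K = j)).card with hDj
  have hS : ∑ j ∈ range (2 ^ K), Dj j ^ 2 ≤ 2 * G * 2 ^ K := by
    have h1 := sum_sq_windows B g hB (2 ^ K) (2 ^ (2 * K)) (2 ^ K) (by positivity)
    have h2 : (below B (2 ^ (2 * K))).card ^ 2 ≤ G * 2 ^ (2 * K) := below_sq B g hB (2 * K)
    have h3 : (below B (2 ^ (2 * K))).card ≤ G * 2 ^ K := by
      by_contra hcon
      push Not at hcon
      have h4 : (G * 2 ^ K) ^ 2 < (below B (2 ^ (2 * K))).card ^ 2 :=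
        Nat.pow_lt_pow_left hcon (by norm_num)
      have h5 : G * 2 ^ (2 * K) ≤ (G * 2 ^ K) ^ 2 := by
        rw [mul_pow, ← pow_mul, mul_comm K 2]
        apply Nat.mul_le_mul_right
        rw [pow_two]
        exact Nat.le_mul_of_pos_left _ (by omega)
      omega
    refine h1.trans ?_
    have h6 : 0 < 2 ^ K := by positivity
    nlinarith
  -- the windows of the scales `k - γ, …, k - 1`
  set I : ℕ → Finset ℕ := fun k => (range (2 ^ K)).filter
    (fun j => 2 ^ (k - γ - K) ≤ j ∧ j < 2 ^ (k - K)) with hI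
  have hlow : ∀ k ∈ (Icc (K + γ) (2 * K)).filter (fun k => Thick B M k),
      2 ^ K ≤ 4 * M * ∑ j ∈ I k, Dj j ^ 2 := by
    intro k hk
    rw [mem_filter, mem_Icc] at hk
    obtain ⟨⟨hk1, hk2⟩, hk3⟩ := hk
    unfold Thick at hk3
    set F := (below B (2 ^ k)).card with hF
    set F' := (below B (2 ^ (k - γ))).card with hF'
    have h1 : F' ^ 2 ≤ G * 2 ^ (k - γ) := below_sq B g hB (k - γ)
    have h2 : 2 ^ (k - γ) * 2 ^ γ = 2 ^ k := by rw [← pow_add]; congr 1; omega
    have h3 : 2 * F' ≤ F := by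
      by_contra hcon
      push Not at hcon
      have e1 : F ^ 2 < (2 * F') ^ 2 := Nat.pow_lt_pow_left hcon (by norm_num)
      have e2 : (2 * F') ^ 2 = 4 * F' ^ 2 := by ring
      have e3 : M * F ^ 2 < M * (4 * (G * 2 ^ (k - γ))) := by
        apply Nat.mul_lt_mul_of_pos_left _ (by omega)
        omega
      have e4 : M * (4 * (G * 2 ^ (k - γ))) = (4 * G * M) * 2 ^ (k - γ) := by ring
      have e5 : (4 * G * M) * 2 ^ (k - γ) ≤ 2 ^ γ * 2 ^ (k - γ) := Nat.mul_le_mul_right _ hγ
      have e6 : 2 ^ γ * 2 ^ (k - γ) = 2 ^ k := by rw [mul_comm]; exact h2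
      omega
    -- the elements between `2 ^ (k - γ)` and `2 ^ k`
    have h4 : F ≤ F' + ∑ j ∈ I k, Dj j := by
      have hsub : below B (2 ^ k) ⊆ below B (2 ^ (k - γ)) ∪
          (I k).biUnion (fun j => (below B (2 ^ (2 * K))).filter (fun a => a / 2 ^ K = j)) := by
        intro a ha
        rw [mem_below] at ha
        rw [mem_union, mem_below, mem_biUnion]
        by_cases hlt : a < 2 ^ (k - γ)
        · exact Or.inl ⟨hlt, ha.2⟩
        · push Not at hlt
          right
          have hKpos : 0 < 2 ^ K := by positivity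
          have e1 : 2 ^ (k - γ - K) ≤ a / 2 ^ K := by
            rw [Nat.le_div_iff_mul_le hKpos, ← pow_add]
            rw [show k - γ - K + K = k - γ by omega]
            exact hlt
          have e2 : a / 2 ^ K < 2 ^ (k - K) := by
            rw [Nat.div_lt_iff_lt_mul hKpos, ← pow_add]
            rw [show k - K + K = k by omega]
            exact ha.1
          have e3 : 2 ^ (k - K) ≤ 2 ^ K := Nat.pow_le_pow_right (by norm_num) (by omega)
          have e4 : 2 ^ k ≤ 2 ^ (2 * K) := Nat.pow_le_pow_right (by norm_num) hk2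
          refine ⟨a / 2 ^ K, ?_, ?_⟩
          · rw [hI, mem_filter, mem_range]
            exact ⟨by omega, e1, e2⟩
          · rw [mem_filter, mem_below]
            exact ⟨⟨by omega, ha.2⟩, rfl⟩
      refine (card_le_card hsub).trans ((card_union_le _ _).trans ?_)
      exact Nat.add_le_add_left card_biUnion_le _
    have h5 : (∑ j ∈ I k, Dj j) ^ 2 ≤ 2 ^ (k - K) * ∑ j ∈ I k, Dj j ^ 2 := by
      refine (sq_sum_le_card_mul_sum_sq (s := I k) (f := Dj)).trans ?_
      apply Nat.mul_le_mul_right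
      have : I k ⊆ range (2 ^ (k - K)) := by
        intro j hj
        rw [hI, mem_filter] at hj
        rw [mem_range]
        exact hj.2.2
      exact (card_le_card this).trans (by rw [card_range])
    have h6 : F ≤ 2 * ∑ j ∈ I k, Dj j := by omega
    have h7 : F ^ 2 ≤ 4 * (2 ^ (k - K) * ∑ j ∈ I k, Dj j ^ 2) := by
      calc F ^ 2 ≤ (2 * ∑ j ∈ I k, Dj j) ^ 2 := Nat.pow_le_pow_left h6 2
        _ = 4 * (∑ j ∈ I k, Dj j) ^ 2 := by ring
        _ ≤ _ := Nat.mul_le_mul_left 4 h5
    have h8 : 2 ^ (k - K) * 2 ^ K ≤ 2 ^ (k - K) * (4 * M * ∑ j ∈ I k, Dj j ^ 2) := by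
      rw [← pow_add, show k - K + K = k by omega]
      calc 2 ^ k ≤ M * F ^ 2 := hk3
        _ ≤ M * (4 * (2 ^ (k - K) * ∑ j ∈ I k, Dj j ^ 2)) := Nat.mul_le_mul_left _ h7
        _ = _ := by ring
    exact Nat.le_of_mul_le_mul_left h8 (by positivity)
  -- summation
  have hsum : ∑ k ∈ (Icc (K + γ) (2 * K)).filter (fun k => Thick B M k), ∑ j ∈ I k, Dj j ^ 2 ≤
      γ * ∑ j ∈ range (2 ^ K), Dj j ^ 2 := by
    calc ∑ k ∈ (Icc (K + γ) (2 * K)).filter (fun k => Thick B M k), ∑ j ∈ I k, Dj j ^ 2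
        ≤ ∑ k ∈ Icc (K + γ) (2 * K), ∑ j ∈ I k, Dj j ^ 2 :=
          sum_le_sum_of_subset (filter_subset _ _)
      _ = ∑ k ∈ Icc (K + γ) (2 * K), ∑ j ∈ range (2 ^ K),
            if 2 ^ (k - γ - K) ≤ j ∧ j < 2 ^ (k - K) then Dj j ^ 2 else 0 := by
          apply sum_congr rfl
          intro k _
          rw [hI, sum_filter]
      _ = ∑ j ∈ range (2 ^ K), ∑ k ∈ Icc (K + γ) (2 * K),
            if 2 ^ (k - γ - K) ≤ j ∧ j < 2 ^ (k - K) then Dj j ^ 2 else 0 := sum_comm
      _ ≤ ∑ j ∈ range (2 ^ K), γ * Dj j ^ 2 := by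
          apply sum_le_sum
          intro j _
          rw [← sum_filter, sum_const, smul_eq_mul]
          apply Nat.mul_le_mul_right
          have hsub : (Icc (K + γ) (2 * K)).filter
              (fun k => 2 ^ (k - γ - K) ≤ j ∧ j < 2 ^ (k - K)) ⊆
                Ioc (K + Nat.log 2 j) (K + Nat.log 2 j + γ) := by
            intro k hk
            rw [mem_filter, mem_Icc] at hk
            obtain ⟨⟨a1, a2⟩, a3, a4⟩ := hk
            rw [mem_Ioc]
            have hj0 : j ≠ 0 := by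
              rintro rfl
              have : 0 < 2 ^ (k - γ - K) := by positivity
              omega
            have b1 : Nat.log 2 j < k - K := Nat.log_lt_of_lt_pow hj0 a4
            have b2 : k - γ - K ≤ Nat.log 2 j := Nat.le_log_of_pow_le (by norm_num) a3
            omega
          refine (card_le_card hsub).trans ?_
          rw [Nat.card_Ioc]
          omega
      _ = γ * ∑ j ∈ range (2 ^ K), Dj j ^ 2 := by rw [← mul_sum]
  have h9 : ((Icc (K + γ) (2 * K)).filter (fun k => Thick B M k)).card * 2 ^ K ≤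
      (8 * M * G * γ) * 2 ^ K := by
    calc ((Icc (K + γ) (2 * K)).filter (fun k => Thick B M k)).card * 2 ^ K
        = ∑ _k ∈ (Icc (K + γ) (2 * K)).filter (fun k => Thick B M k), 2 ^ K := by
          rw [sum_const, smul_eq_mul]
      _ ≤ ∑ k ∈ (Icc (K + γ) (2 * K)).filter (fun k => Thick B M k),
            4 * M * ∑ j ∈ I k, Dj j ^ 2 := sum_le_sum hlow
      _ = 4 * M * ∑ k ∈ (Icc (K + γ) (2 * K)).filter (fun k => Thick B M k),
            ∑ j ∈ I k, Dj j ^ 2 := by rw [← mul_sum]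
      _ ≤ 4 * M * (γ * ∑ j ∈ range (2 ^ K), Dj j ^ 2) := Nat.mul_le_mul_left _ hsum
      _ ≤ 4 * M * (γ * (2 * G * 2 ^ K)) :=
          Nat.mul_le_mul_left _ (Nat.mul_le_mul_left _ hS)
      _ = (8 * M * G * γ) * 2 ^ K := by ring
  exact Nat.le_of_mul_le_mul_right h9 (by positivity)

open Classical in
/-- few thick scales below `X` -/
theorem few_thick' (B : Set ℕ) (g : ℕ) (hB : DiffLE B g) (M γ : ℕ) (hM : 1 ≤ M)
    (hγ : 4 * (4 * g + 1) * M ≤ 2 ^ γ) (X : ℕ) :
    ((Ico 1 (X + 1)).filter (fun k => Thick B M k)).card ≤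
      (Nat.log 2 X + 1) * (8 * M * (4 * g + 1) * γ + γ) := by
  have hsub : (Ico 1 (X + 1)).filter (fun k => Thick B M k) ⊆
      (range (Nat.log 2 X + 1)).biUnion (fun i =>
        ((Icc (2 ^ i + γ) (2 * 2 ^ i)).filter (fun k => Thick B M k)) ∪
          Ico (2 ^ i) (2 ^ i + γ)) := by
    intro k hk
    rw [mem_filter, mem_Ico] at hk
    obtain ⟨⟨h1, h2⟩, h3⟩ := hk
    rw [mem_biUnion]
    refine ⟨Nat.log 2 k, ?_, ?_⟩
    · rw [mem_range]
      have := Nat.log_mono_right (b := 2) (show k ≤ X by omega)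
      omega
    · have a1 : 2 ^ Nat.log 2 k ≤ k := Nat.pow_log_le_self 2 (by omega)
      have a2 : k < 2 ^ (Nat.log 2 k + 1) := Nat.lt_pow_succ_log_self (by norm_num) k
      rw [pow_succ] at a2
      rw [mem_union, mem_filter, mem_Icc, mem_Ico]
      by_cases hk' : k < 2 ^ Nat.log 2 k + γ
      · exact Or.inr ⟨a1, hk'⟩
      · exact Or.inl ⟨⟨by omega, by omega⟩, h3⟩
  refine (card_le_card hsub).trans ?_
  refine (card_biUnion_le_card_mul _ _ (8 * M * (4 * g + 1) * γ + γ) ?_).trans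
    (by rw [card_range])
  intro i _
  refine (card_union_le _ _).trans ?_
  have h1 := few_thick B g hB M γ hM hγ (2 ^ i)
  rw [Nat.card_Ico]
  omega

/-- a covered scale of a union is thick for one of the sets -/
theorem thick_of_covered {m : ℕ} (B : Fin m → Set ℕ) (k : ℕ) (h : Cv (⋃ i, B i) 1 k) :
    ∃ i, Thick (B i) (2 * m ^ 2) (k + 1) := by
  classical
  set A := ⋃ i, B i with hA
  have h1 : 2 ^ k ≤ (below A (2 ^ (k + 1))).card ^ 2 := by
    have hsub : Ico (2 ^ k) (2 ^ (k + 1)) ⊆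
        (below A (2 ^ (k + 1)) ×ˢ below A (2 ^ (k + 1))).image (fun x => x.1 + x.2) := by
      intro n hn
      rw [mem_Ico] at hn
      obtain ⟨a, ha, b, hb, hab⟩ := h n hn.1 hn.2
      rw [mem_image]
      refine ⟨(a, b), ?_, hab⟩
      rw [mem_product, mem_below, mem_below]
      exact ⟨⟨by omega, ha⟩, ⟨by omega, hb⟩⟩
    have h2 := (card_le_card hsub).trans card_image_le
    rw [Nat.card_Ico, card_product, ← pow_two] at h2
    have h7 : 2 ^ (k + 1) = 2 * 2 ^ k := by rw [pow_succ, mul_comm]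
    omega
  have h2 : (below A (2 ^ (k + 1))).card ≤ ∑ i, (below (B i) (2 ^ (k + 1))).card := by
    have hsub : below A (2 ^ (k + 1)) ⊆
        (univ : Finset (Fin m)).biUnion (fun i => below (B i) (2 ^ (k + 1))) := by
      intro a ha
      rw [mem_below, hA, Set.mem_iUnion] at ha
      obtain ⟨h3, i, hi⟩ := ha
      rw [mem_biUnion]
      exact ⟨i, mem_univ i, mem_below.2 ⟨h3, hi⟩⟩
    exact (card_le_card hsub).trans card_biUnion_le
  by_contra hcon
  push Not at hcon
  have h3 : (∑ i, (below (B i) (2 ^ (k + 1))).card) ^ 2 ≤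
      m * ∑ i, (below (B i) (2 ^ (k + 1))).card ^ 2 := by
    refine (sq_sum_le_card_mul_sum_sq (s := (univ : Finset (Fin m)))
      (f := fun i => (below (B i) (2 ^ (k + 1))).card)).trans ?_
    rw [card_univ, Fintype.card_fin]
    exact le_rfl
  have h4 : ∀ i, 2 * m ^ 2 * (below (B i) (2 ^ (k + 1))).card ^ 2 < 2 ^ (k + 1) := by
    intro i
    have := hcon i
    unfold Thick at this
    omega
  have hm : 0 < m := by
    rcases Nat.eq_zero_or_pos m with h0 | h0
    · exfalso
      subst h0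
      rw [Fin.sum_univ_zero] at h2
      have h5 : (below A (2 ^ (k + 1))).card = 0 := by omega
      rw [h5] at h1
      have : 0 < 2 ^ k := by positivity
      omega
    · exact h0
  have hne : (univ : Finset (Fin m)).Nonempty := ⟨⟨0, hm⟩, mem_univ _⟩
  have h5 : ∑ i : Fin m, 2 * m ^ 2 * (below (B i) (2 ^ (k + 1))).card ^ 2 < m * 2 ^ (k + 1) := by
    calc ∑ i : Fin m, 2 * m ^ 2 * (below (B i) (2 ^ (k + 1))).card ^ 2
        < ∑ _i : Fin m, 2 ^ (k + 1) := sum_lt_sum_of_nonempty hne (fun i _ => h4 i)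
      _ = m * 2 ^ (k + 1) := by rw [sum_const, card_univ, Fintype.card_fin, smul_eq_mul]
  rw [← mul_sum] at h5
  have h6 : (below A (2 ^ (k + 1))).card ^ 2 ≤ (∑ i, (below (B i) (2 ^ (k + 1))).card) ^ 2 :=
    Nat.pow_le_pow_left h2 2
  have h7 : 2 ^ (k + 1) = 2 * 2 ^ k := by rw [pow_succ, mul_comm]
  set S := ∑ i, (below (B i) (2 ^ (k + 1))).card ^ 2 with hS
  have h8 : 2 ^ k ≤ m * S := h1.trans (h6.trans h3)
  have h9 : 2 * m * 2 ^ k ≤ 2 * m * (m * S) := Nat.mul_le_mul_left _ h8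
  have h10 : 2 * m * (m * S) = 2 * m ^ 2 * S := by ring
  have h11 : m * 2 ^ (k + 1) = 2 * m * 2 ^ k := by rw [h7]; ring
  omega

/-- **Upper bound.** -/
theorem upper (m g : ℕ) : ∃ C : ℝ, 0 < C ∧ ∀ B : Fin m → Set ℕ, (∀ i, DiffLE (B i) g) →
    ∀ K : ℕ, 2 ≤ K → (covered (⋃ i, B i) 1 K : ℝ) ≤ C * Real.log K := by
  classical
  set M := 2 * m ^ 2 + 1 with hM
  obtain ⟨γ, hγ⟩ : ∃ γ, 4 * (4 * g + 1) * M ≤ 2 ^ γ := ⟨_, Nat.lt_two_pow_self.le⟩
  set L := 8 * M * (4 * g + 1) * γ + γ with hL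
  refine ⟨(m * L + 1) * 4, by positivity, fun B hB K hK => ?_⟩
  have h1 : covered (⋃ i, B i) 1 K ≤ m * ((Nat.log 2 K + 1) * L) := by
    rw [covered_eq]
    have hsub : ((range K).filter (fun k => Cv (⋃ i, B i) 1 k)).image (fun k => k + 1) ⊆
        (univ : Finset (Fin m)).biUnion (fun i =>
          (Ico 1 (K + 1)).filter (fun k => Thick (B i) M k)) := by
      intro k' hk'
      rw [mem_image] at hk'
      obtain ⟨k, hk, rfl⟩ := hk'
      rw [mem_filter, mem_range] at hk
      obtain ⟨i, hi⟩ := thick_of_covered B k hk.2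
      rw [mem_biUnion]
      refine ⟨i, mem_univ i, ?_⟩
      rw [mem_filter, mem_Ico]
      refine ⟨⟨by omega, by omega⟩, ?_⟩
      unfold Thick at hi ⊢
      exact hi.trans (Nat.mul_le_mul_right _ (by omega))
    have h2 := card_le_card hsub
    rw [card_image_of_injective _ (fun a b h => by simpa using h)] at h2
    refine h2.trans ?_
    refine (card_biUnion_le_card_mul _ _ ((Nat.log 2 K + 1) * L) ?_).trans
      (by rw [card_univ, Fintype.card_fin])
    intro i _
    exact few_thick' (B i) g (hB i) M γ (by omega) hγ K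
  have h2 : ((Nat.log 2 K + 1 : ℕ) : ℝ) ≤ 4 * Real.log K := by
    have hK0 : (2 : ℝ) ≤ K := by exact_mod_cast hK
    have hlog2 := Real.log_two_gt_d9
    have e1 : Real.log 2 ≤ Real.log K := Real.log_le_log (by norm_num) hK0
    have e2 : (2 : ℝ) ^ Nat.log 2 K ≤ K := by
      exact_mod_cast Nat.pow_log_le_self 2 (by omega)
    have e3 : Real.log ((2 : ℝ) ^ Nat.log 2 K) ≤ Real.log K := Real.log_le_log (by positivity) e2
    rw [Real.log_pow] at e3
    have e4 : (0 : ℝ) ≤ (Nat.log 2 K : ℝ) := Nat.cast_nonneg _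
    push_cast
    nlinarith
  have h3 : 0 ≤ Real.log K := by
    have : (0 : ℝ) ≤ ((Nat.log 2 K + 1 : ℕ) : ℝ) := Nat.cast_nonneg _
    linarith
  calc (covered (⋃ i, B i) 1 K : ℝ) ≤ ((m * ((Nat.log 2 K + 1) * L) : ℕ) : ℝ) := by
        exact_mod_cast h1
    _ = (m * L : ℝ) * ((Nat.log 2 K + 1 : ℕ) : ℝ) := by push_cast; ring
    _ ≤ (m * L : ℝ) * (4 * Real.log K) := by
        apply mul_le_mul_of_nonneg_left h2
        positivity
    _ ≤ (m * L + 1) * 4 * Real.log K := by nlinarith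

end Pool.Agent.H601.N1
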