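import Pool.Agent.H601.N1.Lower
import Pool.Agent.H601.N1.Upper
import Pool.Graph.R_seed8.Results.MP_12a1af_nt.SparseBasis

/-!
# The base case from the thin basis, and the lower bound
-/

set_option autoImplicit false

namespace Pool.Agent.H601.N1

open Finset Pool.Agent.H125R2.ET Filter

/-- the finite sets of the base case -/
theorem base_case : ∃ C : ℝ, 1 ≤ C ∧ ∀ W : ℕ, ∃ A : Set ℕ,
    (∀ n, (rep A n : ℝ) ≤ C * (((W : ℝ) + 2) / Real.log ((W : ℝ) + 2))) ∧
    ∀ n, 1 ≤ covered A W (8 ^ n) := by
  classical
  obtain ⟨A₀, ⟨n₀, hn₀⟩, -, ⟨B, hB⟩, -⟩ := Pool.Agent.Results.MP_12a1af_nt.SparseBasis.result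
  set B' : ℝ := max B 1 with hB'
  have hB'1 : 1 ≤ B' := le_max_right _ _
  refine ⟨22 * B' + (2 * (n₀ : ℝ) + 5), by
    have : (0 : ℝ) ≤ n₀ := Nat.cast_nonneg _
    linarith, fun W => ?_⟩
  set X : ℝ := (W : ℝ) + 2 with hX
  have hX2 : 2 ≤ X := by
    have : (0 : ℝ) ≤ W := Nat.cast_nonneg _
    linarith
  have hlX : 0 < Real.log X := Real.log_pos (by linarith)
  have hXl : 1 ≤ X / Real.log X := by
    rw [le_div_iff₀ hlX, one_mul]
    have := Real.log_le_sub_one_of_pos (show 0 < X by linarith)
    linarith
  set A : Set ℕ := {a | (a ∈ A₀ ∧ a < 2 ^ W) ∨ a ≤ n₀} with hA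
  refine ⟨A, ?_, ?_⟩
  · intro n
    -- representations with both summands in `A₀ ∩ [0, 2 ^ W)`, and the others
    have h1 : (rep A n : ℝ) ≤ (if n < 2 ^ (W + 1) then
        (Pool.Agent.Results.MP_12a1af_nt.SparseBasis.rep A₀ n : ℝ) else 0) +
          (2 * (n₀ : ℝ) + 2) := by
      have hfin := rep_finite A₀ n
      have h2 : rep A n ≤ (if n < 2 ^ (W + 1) then
          (Pool.Agent.Results.MP_12a1af_nt.SparseBasis.rep A₀ n) else 0) + (2 * n₀ + 2) := by
        split_ifs with hlt
        · refine rep_le_of_subset (hfin.toFinset ∪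
            ((range (n₀ + 1)).image (fun a => (a, n - a)) ∪
              (range (n₀ + 1)).image (fun a => (n - a, a)))) ?_ ?_
          · intro a ha b hb hab
            rw [mem_union, mem_union, Set.Finite.mem_toFinset, mem_image, mem_image]
            rcases ha with ha | ha
            · rcases hb with hb | hb
              · exact Or.inl ⟨ha.1, hb.1, hab⟩
              · refine Or.inr (Or.inr ⟨b, by rw [mem_range]; omega, ?_⟩)
                rw [Prod.mk.injEq]; omega
            · refine Or.inr (Or.inl ⟨a, by rw [mem_range]; omega, ?_⟩)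
              rw [Prod.mk.injEq]; omega
          · refine (card_union_le _ _).trans ?_
            have h3 := card_union_le ((range (n₀ + 1)).image (fun a => (a, n - a)))
              ((range (n₀ + 1)).image (fun a => (n - a, a)))
            have h4 : ((range (n₀ + 1)).image (fun a => (a, n - a))).card ≤ n₀ + 1 :=
              card_image_le.trans (by rw [card_range])
            have h5 : ((range (n₀ + 1)).image (fun a => (n - a, a))).card ≤ n₀ + 1 :=
              card_image_le.trans (by rw [card_range])
            have h6 : hfin.toFinset.card =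
                Pool.Agent.Results.MP_12a1af_nt.SparseBasis.rep A₀ n := by
              unfold Pool.Agent.Results.MP_12a1af_nt.SparseBasis.rep
              rw [Set.ncard_eq_toFinset_card _ hfin]
            omega
        · rw [zero_add]
          refine rep_le_of_subset
            ((range (n₀ + 1)).image (fun a => (a, n - a)) ∪
              (range (n₀ + 1)).image (fun a => (n - a, a))) ?_ ?_
          · intro a ha b hb hab
            rw [mem_union, mem_image, mem_image]
            rcases ha with ha | ha
            · rcases hb with hb | hb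
              · exfalso
                rw [pow_succ] at hlt
                omega
              · refine Or.inr ⟨b, by rw [mem_range]; omega, ?_⟩
                rw [Prod.mk.injEq]; omega
            · refine Or.inl ⟨a, by rw [mem_range]; omega, ?_⟩
              rw [Prod.mk.injEq]; omega
          · have h3 := card_union_le ((range (n₀ + 1)).image (fun a => (a, n - a)))
              ((range (n₀ + 1)).image (fun a => (n - a, a)))
            have h4 : ((range (n₀ + 1)).image (fun a => (a, n - a))).card ≤ n₀ + 1 :=
              card_image_le.trans (by rw [card_range])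
            have h5 : ((range (n₀ + 1)).image (fun a => (n - a, a))).card ≤ n₀ + 1 :=
              card_image_le.trans (by rw [card_range])
            omega
      have h3 : (rep A n : ℝ) ≤ (((if n < 2 ^ (W + 1) then
          (Pool.Agent.Results.MP_12a1af_nt.SparseBasis.rep A₀ n) else 0) + (2 * n₀ + 2) : ℕ) : ℝ) := by
        exact_mod_cast h2
      refine h3.trans (le_of_eq ?_)
      split_ifs <;> push_cast <;> ring
    have hn0 : (0 : ℝ) ≤ n₀ := Nat.cast_nonneg _
    have h7 : (if n < 2 ^ (W + 1) then
        (Pool.Agent.Results.MP_12a1af_nt.SparseBasis.rep A₀ n : ℝ) else 0) ≤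
          22 * B' * (X / Real.log X) + 3 := by
      split_ifs with hlt
      · rcases Nat.lt_or_ge n 3 with hn3 | hn3
        · -- small `n`
          have h8 : Pool.Agent.Results.MP_12a1af_nt.SparseBasis.rep A₀ n ≤ 3 := by
            have h9 : rep A₀ n ≤ 3 := by
              refine rep_le_of_subset ((range (n + 1)).image (fun a => (a, n - a))) ?_ ?_
              · intro a _ b _ hab
                rw [mem_image]
                refine ⟨a, by rw [mem_range]; omega, ?_⟩
                rw [Prod.mk.injEq]; omega
              · exact card_image_le.trans (by rw [card_range]; omega)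
            exact h9
          have h10 : (Pool.Agent.Results.MP_12a1af_nt.SparseBasis.rep A₀ n : ℝ) ≤ 3 := by
            exact_mod_cast h8
          have h11 : 0 ≤ 22 * B' * (X / Real.log X) := by positivity
          linarith
        · have h8 := hB n hn3
          have hn3' : (3 : ℝ) ≤ n := by exact_mod_cast hn3
          have h9 : 1.098 ≤ Real.log n := by
            have : Real.log 3 ≤ Real.log n := Real.log_le_log (by norm_num) hn3'
            have h12 : (1.098 : ℝ) ≤ Real.log 3 := by
              rw [Real.le_log_iff_exp_le (by norm_num)]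
              have h13 : Real.exp 1.098 = Real.exp 1 * Real.exp 0.098 := by
                rw [← Real.exp_add]; norm_num
              have h14 := Real.exp_one_lt_d9
              have h15 : Real.exp 0.098 ≤ 1.1031 := by
                have := Real.exp_bound' (show (0 : ℝ) ≤ 0.098 by norm_num)
                  (show (0.098 : ℝ) ≤ 1 by norm_num) (n := 3) (by norm_num)
                simp [Finset.sum_range_succ, Nat.factorial] at this
                norm_num at this ⊢
                linarith
              rw [h13]
              have : (0 : ℝ) ≤ Real.exp 0.098 := (Real.exp_pos _).le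
              nlinarith
            linarith
          have h10 : Real.log n ≤ X := by
            have h11 : Real.log n ≤ Real.log ((2 : ℝ) ^ (W + 1)) := by
              apply Real.log_le_log (by linarith)
              exact_mod_cast hlt.le
            rw [Real.log_pow] at h11
            have h12 := Real.log_two_lt_d9
            have h13 : (0 : ℝ) ≤ ((W + 1 : ℕ) : ℝ) := Nat.cast_nonneg _
            have h14 : ((W + 1 : ℕ) : ℝ) = X - 1 := by rw [hX]; push_cast; ring
            rw [h14] at h11 h13
            nlinarith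
          have h11 := div_log_le (Real.log n) X h9 h10 hX2
          have h12 : 0 ≤ Real.log n / Real.log (Real.log n) := by
            apply div_nonneg (by linarith)
            exact (Real.log_pos (by linarith)).le
          calc (Pool.Agent.Results.MP_12a1af_nt.SparseBasis.rep A₀ n : ℝ)
              ≤ B * (Real.log n / Real.log (Real.log n)) := h8
            _ ≤ B' * (Real.log n / Real.log (Real.log n)) :=
                mul_le_mul_of_nonneg_right (le_max_left _ _) h12
            _ ≤ B' * (22 * (X / Real.log X)) := mul_le_mul_of_nonneg_left h11 (by linarith)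
            _ ≤ 22 * B' * (X / Real.log X) + 3 := by linarith
      · have : 0 ≤ 22 * B' * (X / Real.log X) := by positivity
        linarith
    have h8 : (2 * (n₀ : ℝ) + 5) ≤ (2 * (n₀ : ℝ) + 5) * (X / Real.log X) := by
      nlinarith
    calc (rep A n : ℝ) ≤ (22 * B' * (X / Real.log X) + 3) + (2 * (n₀ : ℝ) + 2) := by linarith
      _ ≤ (22 * B' + (2 * (n₀ : ℝ) + 5)) * (X / Real.log X) := by linarith
  · intro n
    rw [covered_eq]
    rw [Nat.one_le_iff_ne_zero, ← Nat.pos_iff_ne_zero, Finset.card_pos]
    refine ⟨0, ?_⟩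
    rw [mem_filter, mem_range]
    refine ⟨by positivity, ?_⟩
    intro m hm1 hm2
    rw [zero_add] at hm2
    rcases Nat.lt_or_ge m n₀ with hlt | hge
    · exact ⟨0, Or.inr (Nat.zero_le _), m, Or.inr hlt.le, by omega⟩
    · have h1 := hn₀ m hge
      have h2 : ({x : ℕ × ℕ | x.1 ∈ A₀ ∧ x.2 ∈ A₀ ∧ x.1 + x.2 = m}).Nonempty := by
        rw [← Set.ncard_pos (rep_finite A₀ m)]
        exact h1
      obtain ⟨⟨a, b⟩, ha, hb, hab⟩ := h2
      simp only at ha hb hab
      exact ⟨a, Or.inl ⟨ha, by omega⟩, b, Or.inl ⟨hb, by omega⟩, hab⟩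

/-- **Lower bound.** -/
theorem lower : ∃ C : ℝ, 1 ≤ C ∧ ∀ D W : ℕ, ∃ A : Set ℕ,
    (∀ n, (rep A n : ℝ) ≤ C ^ (D + 1) * (((W : ℝ) + 2) / Real.log ((W : ℝ) + 2))) ∧
    ∃ c : ℝ, 0 < c ∧ ∀ᶠ K : ℕ in atTop, c * Real.log K ^ D ≤ covered A W K := by
  obtain ⟨C, hC1, hC⟩ := exists_wbase
  obtain ⟨C', hC'1, hbase⟩ := base_case
  have hC1' : (1 : ℝ) ≤ C := by exact_mod_cast hC1
  refine ⟨18 * C * C + 2 * C', by nlinarith, fun D W => ?_⟩
  set f : ℕ → ℝ := fun W => C' * (((W : ℝ) + 2) / Real.log ((W : ℝ) + 2)) with hf
  have hf1 : ∀ W, 1 ≤ f W := by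
    intro W
    have hX2 : (2 : ℝ) ≤ (W : ℝ) + 2 := by
      have : (0 : ℝ) ≤ W := Nat.cast_nonneg _
      linarith
    have hlX : 0 < Real.log ((W : ℝ) + 2) := Real.log_pos (by linarith)
    have : 1 ≤ ((W : ℝ) + 2) / Real.log ((W : ℝ) + 2) := by
      rw [le_div_iff₀ hlX, one_mul]
      have := Real.log_le_sub_one_of_pos (show 0 < (W : ℝ) + 2 by linarith)
      linarith
    rw [hf]
    simp only
    nlinarith
  obtain ⟨A, h1, a, h2⟩ := iterate C hC hC1 (fun W => ⌊f W⌋₊)
    (fun W => Nat.le_floor (by exact_mod_cast hf1 W))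
    (fun W => by
      obtain ⟨A, h1, h2⟩ := hbase W
      exact ⟨A, fun n => Nat.le_floor (h1 n), h2⟩) D W
  refine ⟨A, ?_, growth _ (covered_mono A W) D a h2⟩
  intro n
  have h3 : (rep A n : ℝ) ≤ (6 * C * C : ℝ) ^ D * f (W + 4 * D) := by
    have h4 : (rep A n : ℝ) ≤ (((6 * C * C) ^ D * ⌊f (W + 4 * D)⌋₊ : ℕ) : ℝ) := by
      exact_mod_cast h1 n
    refine h4.trans ?_
    push_cast
    apply mul_le_mul_of_nonneg_left _ (by positivity)
    exact Nat.floor_le (by have := hf1 (W + 4 * D); linarith)
  refine h3.trans ?_
  set X : ℝ := (W : ℝ) + 2 with hX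
  have hX2 : (2 : ℝ) ≤ X := by
    have : (0 : ℝ) ≤ W := Nat.cast_nonneg _
    linarith
  have hlX : 0 < Real.log X := Real.log_pos (by linarith)
  have hD3 : (1 : ℝ) + 2 * D ≤ 3 ^ D := by
    have := one_add_mul_le_pow (show (-2 : ℝ) ≤ 2 by norm_num) D
    norm_num at this
    linarith
  have hD0 : (0 : ℝ) ≤ D := Nat.cast_nonneg _
  have h5 : f (W + 4 * D) ≤ C' * (3 ^ D * (X / Real.log X)) := by
    rw [hf]
    simp only
    apply mul_le_mul_of_nonneg_left _ (by linarith)
    have e1 : ((W + 4 * D : ℕ) : ℝ) + 2 = X + 4 * D := by rw [hX]; push_cast; ring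
    rw [e1]
    have e2 : Real.log X ≤ Real.log (X + 4 * D) := Real.log_le_log (by linarith) (by linarith)
    calc (X + 4 * D) / Real.log (X + 4 * D) ≤ (X + 4 * D) / Real.log X := by
          apply div_le_div_of_nonneg_left (by linarith) hlX e2
      _ ≤ (3 ^ D * X) / Real.log X := by
          apply div_le_div_of_nonneg_right _ hlX.le
          nlinarith
      _ = 3 ^ D * (X / Real.log X) := by ring
  have h6 : 0 ≤ X / Real.log X := by positivity
  calc (6 * C * C : ℝ) ^ D * f (W + 4 * D)
      ≤ (6 * C * C : ℝ) ^ D * (C' * (3 ^ D * (X / Real.log X))) :=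
        mul_le_mul_of_nonneg_left h5 (by positivity)
    _ = (18 * C * C : ℝ) ^ D * C' * (X / Real.log X) := by
        have e0 : (18 * C * C : ℝ) = (6 * C * C) * 3 := by ring
        rw [e0, mul_pow (6 * C * C : ℝ) 3]
        generalize (6 * C * C : ℝ) ^ D = x
        generalize (3 : ℝ) ^ D = y
        ring
    _ ≤ (18 * C * C + 2 * C') ^ (D + 1) * (X / Real.log X) := by
        apply mul_le_mul_of_nonneg_right _ h6
        rw [pow_succ]
        apply mul_le_mul _ _ (by linarith) (by positivity)
        · exact pow_le_pow_left₀ (by positivity) (by linarith) D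
        · nlinarith

end Pool.Agent.H601.N1
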