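import Pool.Agent.H601.N1.Union

/-!
# One step of the construction
-/

set_option autoImplicit false

namespace Pool.Agent.H601.N1

open Finset Pool.Agent.H125R2.ET

/-- `A + A` contains all the numbers of `[2 ^ k, 2 ^ (k + W))` -/
def Cv (A : Set ℕ) (W k : ℕ) : Prop :=
  ∀ n, 2 ^ k ≤ n → n < 2 ^ (k + W) → ∃ a ∈ A, ∃ b ∈ A, a + b = n

/-- number of the `k < K` such that `A + A` contains all the numbers of `[2 ^ k, 2 ^ (k + W))` -/
noncomputable def covered (A : Set ℕ) (W K : ℕ) : ℕ :=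
  {k : ℕ | k < K ∧ ∀ n, 2 ^ k ≤ n → n < 2 ^ (k + W) → ∃ a ∈ A, ∃ b ∈ A, a + b = n}.ncard

open Classical in
theorem covered_eq (A : Set ℕ) (W K : ℕ) :
    covered A W K = ((range K).filter (fun k => Cv A W k)).card := by
  unfold covered
  rw [← Set.ncard_coe_finset]
  congr 1
  ext k
  rw [Finset.mem_coe, Finset.mem_filter, Finset.mem_range]
  rfl

theorem repF_le_rep {T : Set ℕ} (F : Finset ℕ) (hF : ∀ t ∈ F, t ∈ T) (n : ℕ) :
    repF F F n ≤ rep T n := by
  unfold repF rep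
  rw [← Set.ncard_coe_finset]
  apply Set.ncard_le_ncard _ (rep_finite T n)
  rintro ⟨a, b⟩ h
  rw [mem_coe, mem_filter, mem_product] at h
  exact ⟨hF _ h.1.1, hF _ h.1.2, h.2⟩

theorem step (C : ℕ) (hC : ∀ p : ℕ, p.Prime → 7 < p → ∃ D : Finset ℕ, IsWBase C p D)
    (T : Set ℕ) (R : ℕ) (hT : ∀ n, rep T n ≤ R) (W : ℕ) :
    ∃ A : Set ℕ, (∀ n, rep A n ≤ 2 * C * (C * R) + 2 * (2 * C * C)) ∧
      ∃ k0 : ℕ, ∀ n, ∑ i ∈ range (n - k0), covered T (W + 4) (8 ^ i) ≤ covered A W (8 ^ n) := by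
  classical
  -- parameters
  set k1 := C + W + 5 with hk1
  have h8 : ∀ i : ℕ, i < 8 ^ i := fun i => Nat.lt_pow_self (by norm_num)
  set e : ℕ → ℕ := fun i => 8 ^ (i + k1) with he
  have he1 : ∀ i, 8 ^ i * (C + W + 5) ≤ e i := by
    intro i
    rw [he]
    simp only
    rw [pow_add]
    exact Nat.mul_le_mul_left _ (h8 k1).le
  have h8pos : ∀ i : ℕ, 1 ≤ 8 ^ i := fun i => Nat.one_le_pow _ _ (by norm_num)
  have he2 : ∀ i, C + W + 5 ≤ e i := by
    intro i
    refine le_trans ?_ (he1 i)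
    exact Nat.le_mul_of_pos_left _ (h8pos i)
  have hesucc : ∀ i, e (i + 1) = 8 * e i := by
    intro i
    rw [he]
    simp only
    rw [show i + 1 + k1 = (i + k1) + 1 by ring, pow_succ, mul_comm]
  have hp : ∀ i, ∃ p, p.Prime ∧ 2 ^ e i < p ∧ p ≤ 2 * 2 ^ e i :=
    fun i => Nat.exists_prime_lt_and_le_two_mul _ (by positivity)
  choose p hpp hp1 hp2 using hp
  have hp7 : ∀ i, 7 < p i := by
    intro i
    have h1 : 2 ^ 3 ≤ 2 ^ e i := Nat.pow_le_pow_right (by norm_num) (by have := he2 i; omega)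
    have h2 := hp1 i
    omega
  have hD : ∀ i, ∃ D : Finset ℕ, IsWBase C (p i) D := fun i => hC _ (hpp i) (hp7 i)
  choose D hD using hD
  have hp0 : ∀ i, 0 < p i := fun i => (hpp i).pos
  set Tf : ℕ → Finset ℕ := fun i => (range (2 ^ e i)).filter (fun t => t ∈ T) with hTf
  have hTR : ∀ i n, repF (Tf i) (Tf i) n ≤ R := by
    intro i n
    refine (repF_le_rep _ ?_ n).trans (hT n)
    intro t ht
    rw [hTf, mem_filter] at ht
    exact ht.2
  set B : ℕ → Finset ℕ := fun i => wide (D i) (Tf i) ((p i) ^ 2) with hB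
  have hm1 : ∀ i, 2 ^ (2 * e i) < (p i) ^ 2 := by
    intro i
    rw [show 2 * e i = e i * 2 by ring, pow_mul]
    exact Nat.pow_lt_pow_left (hp1 i) (by norm_num)
  have hm2 : ∀ i, (p i) ^ 2 ≤ 2 ^ (2 * e i + 2) := by
    intro i
    rw [show 2 * e i + 2 = (e i + 1) * 2 by ring, pow_mul]
    apply Nat.pow_le_pow_left
    rw [pow_succ, mul_comm]
    exact hp2 i
  have hblk : Blk (2 * C * (C * R)) (2 * C * C) B (fun i => (p i) ^ 2) (fun i => 2 ^ (4 * e i))
      p := by
    refine ⟨?_, ?_, ?_, ?_, ?_, ?_, ?_, ?_⟩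
    · intro i a ha
      rw [hB, mem_wide] at ha
      obtain ⟨d, hd, t, -, rfl⟩ := ha
      have := (hD i).base.lo d hd
      omega
    · intro i a ha
      rw [hB, mem_wide] at ha
      obtain ⟨d, hd, t, ht, rfl⟩ := ha
      have h1 := (hD i).base.hi d hd
      rw [hTf, mem_filter, mem_range] at ht
      have h2 : d + p i ^ 2 * t < p i ^ 2 * (C + 2 ^ e i) := by
        rw [Nat.mul_add, mul_comm (p i ^ 2) C]
        have := Nat.mul_le_mul_left (p i ^ 2) ht.1.le
        omega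
      have h3 : C ≤ 2 ^ e i := by
        have := (he2 i)
        have h4 : e i < 2 ^ e i := Nat.lt_two_pow_self
        omega
      calc d + p i ^ 2 * t < p i ^ 2 * (C + 2 ^ e i) := h2
        _ ≤ 2 ^ (2 * e i + 2) * (2 ^ e i + 2 ^ e i) :=
            Nat.mul_le_mul (hm2 i) (Nat.add_le_add_right h3 _)
        _ = 2 ^ (3 * e i + 3) := by
            rw [← two_mul, ← pow_succ', ← pow_add]
            congr 1
            ring
        _ ≤ 2 ^ (4 * e i) := Nat.pow_le_pow_right (by norm_num) (by have := he2 i; omega)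
    · intro i
      exact (hm2 i).trans (Nat.pow_le_pow_right (by norm_num) (by have := he2 i; omega))
    · intro i
      refine le_trans ?_ (hp1 (i + 1)).le
      apply Nat.pow_le_pow_right (by norm_num)
      rw [hesucc]
      omega
    · intro i
      rw [pow_two]
      exact Nat.le_mul_of_pos_left _ (hp0 i)
    · intro i
      refine le_trans ?_ (hm1 (i + 1)).le
      rw [← pow_succ']
      apply Nat.pow_le_pow_right (by norm_num)
      rw [hesucc]
      have := he2 i
      omega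
    · intro i n
      exact repF_wide (hp0 i) (hD i).base (hTR i) n
    · intro i y
      exact wnd_wide (hp0 i) (hD i) y
  refine ⟨{a | ∃ i, a ∈ B i}, hblk.rep_le, k1 + 1, ?_⟩
  -- coverage
  set g : ℕ → ℕ := fun i => Nat.log 2 ((p i) ^ 2) with hg
  have hg1 : ∀ i, 2 ^ g i ≤ (p i) ^ 2 := fun i =>
    Nat.pow_log_le_self 2 (pow_pos (hp0 i) 2).ne'
  have hg2 : ∀ i, (p i) ^ 2 < 2 ^ (g i + 1) := fun i => Nat.lt_pow_succ_log_self (by norm_num) _
  have hg3 : ∀ i, 2 * e i ≤ g i := by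
    intro i
    have h1 := (hm1 i).trans (hg2 i)
    have := (Nat.pow_lt_pow_iff_right (by norm_num : 1 < 2)).1 h1
    omega
  have hg4 : ∀ i, g i ≤ 2 * e i + 2 := by
    intro i
    have h1 := (hg1 i).trans (hm2 i)
    exact (Nat.pow_le_pow_iff_right (by norm_num : 1 < 2)).1 h1
  have hcov : ∀ i j, j < 8 ^ i → Cv T (W + 4) j → Cv {a | ∃ i, a ∈ B i} W (g i + j + 4) := by
    intro i j hj hT n hn1 hn2
    set m := (p i) ^ 2 with hm
    have hm0 : 0 < m := pow_pos (hp0 i) 2
    have hjW : j + (W + 4) ≤ e i := by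
      have h1 := he1 i
      have h2 : 8 ^ i + (W + 4) ≤ 8 ^ i * (C + W + 5) := by
        have := h8pos i
        nlinarith
      omega
    have hq1 : 2 ^ (j + 3) ≤ n / m := by
      rw [Nat.le_div_iff_mul_le hm0]
      calc 2 ^ (j + 3) * m ≤ 2 ^ (j + 3) * 2 ^ (g i + 1) := Nat.mul_le_mul_left _ (hg2 i).le
        _ = 2 ^ (g i + j + 4) := by rw [← pow_add]; congr 1; ring
        _ ≤ n := hn1
    have hq2 : n / m < 2 ^ (j + (W + 4)) := by
      rw [Nat.div_lt_iff_lt_mul hm0]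
      calc n < 2 ^ (g i + j + 4 + W) := hn2
        _ = 2 ^ (j + (W + 4)) * 2 ^ g i := by rw [← pow_add]; congr 1; ring
        _ ≤ 2 ^ (j + (W + 4)) * m := Nat.mul_le_mul_left _ (hg1 i)
    have hq3 : 2 ^ (j + 3) = 8 * 2 ^ j := by rw [pow_add]; ring
    have hj0 : 1 ≤ 2 ^ j := Nat.one_le_pow _ _ (by norm_num)
    obtain ⟨t, ht, t', ht', htt⟩ := hT (n / m - 6) (by omega) (by omega)
    have hr := Nat.mod_lt n hm0
    obtain ⟨d, hd, d', hd', hdd⟩ := (hD i).base.cover (6 * m + n % m) (by omega) (by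
      have : 7 * m ≤ 2 ^ 20 * m := Nat.mul_le_mul_right _ (by norm_num)
      omega)
    have hpe : 2 ^ (j + (W + 4)) ≤ 2 ^ e i := Nat.pow_le_pow_right (by norm_num) hjW
    refine ⟨d + m * t, ⟨i, ?_⟩, d' + m * t', ⟨i, ?_⟩, ?_⟩
    · rw [hB, mem_wide]
      refine ⟨d, hd, t, ?_, rfl⟩
      rw [hTf, mem_filter, mem_range]
      exact ⟨by omega, ht⟩
    · rw [hB, mem_wide]
      refine ⟨d', hd', t', ?_, rfl⟩
      rw [hTf, mem_filter, mem_range]
      exact ⟨by omega, ht'⟩
    · have h1 : d + m * t + (d' + m * t') = (d + d') + m * (t + t') := by ring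
      rw [h1, hdd, htt, Nat.mul_sub]
      have h2 := Nat.mod_add_div n m
      have h3 : m * 6 ≤ m * (n / m) := Nat.mul_le_mul_left _ (by omega)
      omega
  intro n
  have hrw : ∑ i ∈ range (n - (k1 + 1)), covered T (W + 4) (8 ^ i) =
      ((range (n - (k1 + 1))).sigma
        (fun i => (range (8 ^ i)).filter (fun k => Cv T (W + 4) k))).card := by
    rw [card_sigma]
    exact sum_congr rfl fun i _ => covered_eq _ _ _
  rw [hrw, covered_eq]
  -- monotonicity of `e`
  have hmono : ∀ i j, i < j → 8 * e i ≤ e j := by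
    intro i j hij
    rw [← hesucc, he]
    simp only
    exact Nat.pow_le_pow_right (by norm_num) (by omega)
  have hjlt : ∀ i j, j < 8 ^ i → j < e i := by
    intro i j hj
    have := he1 i
    have : 8 ^ i ≤ 8 ^ i * (C + W + 5) := Nat.le_mul_of_pos_right _ (by omega)
    omega
  apply card_le_card_of_injOn (fun x : (Σ _ : ℕ, ℕ) => g x.1 + x.2 + 4)
  · rintro ⟨i, j⟩ hx
    rw [mem_coe, mem_sigma, mem_range, mem_filter, mem_range] at hx
    obtain ⟨h1, h2, h3⟩ := hx
    simp only at h1 h2 h3 ⊢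
    rw [mem_coe, mem_filter, mem_range]
    refine ⟨?_, hcov i j h2 h3⟩
    have h4 := hg4 i
    have h5 := hjlt i j h2
    have h6 := he2 i
    have h7 : e (i + 1) ≤ 8 ^ n := Nat.pow_le_pow_right (by norm_num) (by omega)
    rw [hesucc] at h7
    omega
  · rintro ⟨i, j⟩ hx ⟨i', j'⟩ hx' heq
    rw [mem_coe, mem_sigma, mem_range, mem_filter, mem_range] at hx hx'
    obtain ⟨h1, h2, h3⟩ := hx
    obtain ⟨h1', h2', h3'⟩ := hx'
    simp only at h1 h2 h3 h1' h2' h3' heq
    have h4 := hg4 i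
    have h5 := hjlt i j h2
    have h6 := he2 i
    have h7 := hg3 i
    have h4' := hg4 i'
    have h5' := hjlt i' j' h2'
    have h6' := he2 i'
    have h7' := hg3 i'
    rcases lt_trichotomy i i' with hlt | heqi | hgt
    · have := hmono i i' hlt
      omega
    · subst heqi
      have : j = j' := by omega
      subst this
      rfl
    · have := hmono i' i hgt
      omega

end Pool.Agent.H601.N1
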