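import Pool.Agent.H601.N1.Base

/-!
# Unions of blocks at very different scales
-/

set_option autoImplicit false

namespace Pool.Agent.H601.N1

open Finset Pool.Agent.H125R2.ET

/-- `r_A(n)`, the number of ordered pairs `(a, b) ∈ A × A` with `a + b = n` -/
noncomputable def rep (A : Set ℕ) (n : ℕ) : ℕ :=
  {x : ℕ × ℕ | x.1 ∈ A ∧ x.2 ∈ A ∧ x.1 + x.2 = n}.ncard

theorem rep_le_of_subset {A : Set ℕ} {n R : ℕ} (F : Finset (ℕ × ℕ))
    (h : ∀ a ∈ A, ∀ b ∈ A, a + b = n → (a, b) ∈ F) (hF : F.card ≤ R) : rep A n ≤ R := by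
  unfold rep
  have h1 : {x : ℕ × ℕ | x.1 ∈ A ∧ x.2 ∈ A ∧ x.1 + x.2 = n} ⊆ (F : Set (ℕ × ℕ)) := by
    rintro ⟨a, b⟩ ⟨ha, hb, hab⟩
    exact h a ha b hb hab
  exact (Set.ncard_le_ncard h1 F.finite_toSet).trans (by rw [Set.ncard_coe_finset]; exact hF)

theorem rep_finite (A : Set ℕ) (n : ℕ) :
    {x : ℕ × ℕ | x.1 ∈ A ∧ x.2 ∈ A ∧ x.1 + x.2 = n}.Finite := by
  apply (Finset.finite_toSet ((range (n + 1)) ×ˢ (range (n + 1)))).subset
  rintro ⟨a, b⟩ ⟨_, _, h⟩
  simp only at h
  simp only [coe_product, coe_range, Set.mem_prod, Set.mem_Iio]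
  omega

/-- the blocks: `B i` has its elements in `[lo i, hi i)`, few elements in windows of length `P i` -/
structure Blk (R1 R2 : ℕ) (B : ℕ → Finset ℕ) (lo hi P : ℕ → ℕ) : Prop where
  ge : ∀ i, ∀ a ∈ B i, lo i ≤ a
  lt : ∀ i, ∀ a ∈ B i, a < hi i
  lh : ∀ i, lo i ≤ hi i
  hp : ∀ i, hi i ≤ P (i + 1)
  pl : ∀ i, P i ≤ lo i
  hl : ∀ i, 2 * hi i ≤ lo (i + 1)
  rp : ∀ i n, repF (B i) (B i) n ≤ R1
  wn : ∀ i y, ((B i).filter (fun a => y ≤ a ∧ a < y + P i)).card ≤ R2

theorem Blk.hi_le_P {R1 R2 : ℕ} {B : ℕ → Finset ℕ} {lo hi P : ℕ → ℕ} (h : Blk R1 R2 B lo hi P)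
    {i j : ℕ} (hij : i < j) : hi i ≤ P j := by
  obtain ⟨d, rfl⟩ := Nat.exists_eq_add_of_lt hij
  induction d with
  | zero => exact h.hp i
  | succ d ih =>
    have h1 := ih (by omega)
    have h2 := h.pl (i + d + 1)
    have h3 := h.lh (i + d + 1)
    have h4 := h.hp (i + d + 1)
    exact ((h1.trans h2).trans h3).trans h4

theorem Blk.hi2_le_lo {R1 R2 : ℕ} {B : ℕ → Finset ℕ} {lo hi P : ℕ → ℕ} (h : Blk R1 R2 B lo hi P)
    {i j : ℕ} (hij : i < j) : 2 * hi i ≤ lo j := by
  obtain ⟨d, rfl⟩ := Nat.exists_eq_add_of_lt hij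
  induction d with
  | zero => exact h.hl i
  | succ d ih =>
    have h1 := ih (by omega)
    have h3 := h.lh (i + d + 1)
    have h4 := h.hl (i + d + 1)
    have h5 : lo (i + (d + 1) + 1) = lo (i + d + 1 + 1) := rfl
    omega

theorem Blk.rep_le {R1 R2 : ℕ} {B : ℕ → Finset ℕ} {lo hi P : ℕ → ℕ} (h : Blk R1 R2 B lo hi P)
    (n : ℕ) : rep {a | ∃ i, a ∈ B i} n ≤ R1 + 2 * R2 := by
  classical
  -- the top block of a representation
  have key : ∀ i j, i ≤ j → ∀ a ∈ B i, ∀ b ∈ B j, a + b = n → lo j ≤ n ∧ n < 2 * hi j := by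
    intro i j hij a ha b hb hab
    have h1 := h.ge j b hb
    have h2 := h.lt j b hb
    have h3 := h.lt i a ha
    have h4 : hi i ≤ hi j := by
      rcases hij.eq_or_lt with rfl | hlt
      · exact le_rfl
      · have := h.hi2_le_lo hlt
        have := h.lh j
        omega
    omega
  by_cases hex : ∃ j, lo j ≤ n ∧ n < 2 * hi j
  · obtain ⟨L, hL⟩ := hex
    have huniq : ∀ j, lo j ≤ n ∧ n < 2 * hi j → j = L := by
      intro j hj
      rcases lt_trichotomy j L with hlt | heq | hgt
      · have := h.hi2_le_lo hlt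
        omega
      · exact heq
      · have := h.hi2_le_lo hgt
        omega
    set W := (B L).filter (fun b => n + 1 - P L ≤ b ∧ b < n + 1 - P L + P L) with hW
    have hWc : W.card ≤ R2 := h.wn L _
    refine rep_le_of_subset (((B L ×ˢ B L).filter (fun x => x.1 + x.2 = n)) ∪
      ((W.image (fun b => (n - b, b))) ∪ (W.image (fun b => (b, n - b))))) ?_ ?_
    · rintro a ⟨i, ha⟩ b ⟨j, hb⟩ hab
      rw [mem_union, mem_union]
      rcases lt_trichotomy i j with hlt | heq | hgt
      · have hjL := huniq j (key i j hlt.le a ha b hb hab)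
        subst hjL
        right; left
        rw [mem_image]
        refine ⟨b, ?_, ?_⟩
        · rw [hW, mem_filter]
          have h1 := h.lt i a ha
          have h2 := h.hi_le_P hlt
          exact ⟨hb, by omega, by omega⟩
        · rw [Prod.mk.injEq]; omega
      · subst heq
        have hiL := huniq i (key i i le_rfl a ha b hb hab)
        subst hiL
        left
        rw [mem_filter, mem_product]
        exact ⟨⟨ha, hb⟩, hab⟩
      · have hiL := huniq i (key j i hgt.le b hb a ha (by omega))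
        subst hiL
        right; right
        rw [mem_image]
        refine ⟨a, ?_, ?_⟩
        · rw [hW, mem_filter]
          have h1 := h.lt j b hb
          have h2 := h.hi_le_P hgt
          exact ⟨ha, by omega, by omega⟩
        · rw [Prod.mk.injEq]; omega
    · have h1 := h.rp L n
      unfold repF at h1
      have h2 : (W.image (fun b => (n - b, b))).card ≤ R2 := card_image_le.trans hWc
      have h3 : (W.image (fun b => (b, n - b))).card ≤ R2 := card_image_le.trans hWc
      refine (card_union_le _ _).trans ?_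
      have h4 := card_union_le (W.image (fun b => (n - b, b))) (W.image (fun b => (b, n - b)))
      omega
  · refine rep_le_of_subset ∅ ?_ (by simp)
    rintro a ⟨i, ha⟩ b ⟨j, hb⟩ hab
    exfalso
    rcases le_total i j with hij | hij
    · exact hex ⟨j, key i j hij a ha b hb hab⟩
    · exact hex ⟨i, key j i hij b hb a ha (by omega)⟩

/-- wide block -/
def wide (D T : Finset ℕ) (m : ℕ) : Finset ℕ := (D ×ˢ T).image (fun x => x.1 + m * x.2)

theorem mem_wide {D T : Finset ℕ} {m a : ℕ} :
    a ∈ wide D T m ↔ ∃ d ∈ D, ∃ t ∈ T, d + m * t = a := by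
  unfold wide
  rw [mem_image]
  constructor
  · rintro ⟨⟨d, t⟩, h, rfl⟩
    rw [mem_product] at h
    exact ⟨d, h.1, t, h.2, rfl⟩
  · rintro ⟨d, hd, t, ht, rfl⟩
    exact ⟨(d, t), mem_product.2 ⟨hd, ht⟩, rfl⟩

/-- multiplicity of a wide block -/
theorem repF_wide {C p R : ℕ} {D T : Finset ℕ} (hp : 0 < p) (hD : IsBase C p D)
    (hT : ∀ n, repF T T n ≤ R) (n : ℕ) :
    repF (wide D T (p ^ 2)) (wide D T (p ^ 2)) n ≤ 2 * C * (C * R) := by
  classical
  set m := p ^ 2 with hm
  have hm0 : 0 < m := pow_pos hp 2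
  -- `d + d' = n % m + q * m`, `t + t' = n / m - q`
  have hsub : ((wide D T m ×ˢ wide D T m).filter (fun x => x.1 + x.2 = n)) ⊆
      (range (2 * C)).biUnion (fun q =>
        (((D ×ˢ D).filter (fun x => x.1 + x.2 = n % m + m * q)) ×ˢ
          ((T ×ˢ T).filter (fun y => y.1 + y.2 = n / m - q))).image
            (fun z => (z.1.1 + m * z.2.1, z.1.2 + m * z.2.2))) := by
    rintro ⟨u, v⟩ h
    rw [mem_filter, mem_product, mem_wide, mem_wide] at h
    obtain ⟨⟨⟨d, hd, t, ht, hu⟩, ⟨d', hd', t', ht', hv⟩⟩, hn⟩ := h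
    simp only at hu hv hn
    have e1 : n = (d + d') + m * (t + t') := by rw [← hn, ← hu, ← hv]; ring
    have e2 : n % m = (d + d') % m := by rw [e1, Nat.add_mul_mod_self_left]
    have e3 : n / m = (d + d') / m + (t + t') := by rw [e1, Nat.add_mul_div_left _ _ hm0]
    have hq : (d + d') / m < 2 * C := by
      rw [Nat.div_lt_iff_lt_mul hm0]
      have h1 : d < C * m := hD.hi d hd
      have h2 : d' < C * m := hD.hi d' hd'
      have h3 : 2 * C * m = C * m + C * m := by ring
      omega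
    rw [mem_biUnion]
    refine ⟨(d + d') / m, mem_range.2 hq, ?_⟩
    rw [mem_image]
    refine ⟨((d, d'), (t, t')), ?_, ?_⟩
    · rw [mem_product, mem_filter, mem_filter, mem_product, mem_product]
      refine ⟨⟨⟨hd, hd'⟩, ?_⟩, ⟨ht, ht'⟩, ?_⟩
      · simp only
        rw [e2]
        exact (Nat.mod_add_div _ _).symm
      · simp only
        omega
    · simp only [Prod.mk.injEq]
      exact ⟨hu, hv⟩
  unfold repF
  refine (card_le_card hsub).trans ?_
  refine (card_biUnion_le_card_mul _ _ (C * R) ?_).trans (by rw [card_range])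
  intro q _
  refine card_image_le.trans ?_
  rw [card_product]
  exact Nat.mul_le_mul (hD.rep _) (hT _)

/-- windows of a wide block -/
theorem wnd_wide {C p : ℕ} {D T : Finset ℕ} (hp : 0 < p) (hD : IsWBase C p D) (y : ℕ) :
    ((wide D T (p ^ 2)).filter (fun a => y ≤ a ∧ a < y + p)).card ≤ 2 * C * C := by
  classical
  set m := p ^ 2 with hm
  have hm0 : 0 < m := pow_pos hp 2
  have hpm : p ≤ m := by rw [hm, pow_two]; exact Nat.le_mul_of_pos_left _ hp
  have hsub : ((wide D T m).filter (fun a => y ≤ a ∧ a < y + p)) ⊆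
      ((range 2) ×ˢ (range C)).biUnion (fun vq =>
        (D.filter (fun d => y - m * (y / m + vq.1 - vq.2) ≤ d ∧
          d < y - m * (y / m + vq.1 - vq.2) + p)).image
            (fun d => d + m * (y / m + vq.1 - vq.2))) := by
    intro a ha
    rw [mem_filter, mem_wide] at ha
    obtain ⟨⟨d, hd, t, ht, hdt⟩, h1, h2⟩ := ha
    have e1 : a / m = d / m + t := by rw [← hdt, Nat.add_mul_div_left _ _ hm0]
    have h3 : y / m ≤ a / m := Nat.div_le_div_right h1
    have h4 : a / m ≤ y / m + 1 := by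
      have : a ≤ y + m := by omega
      calc a / m ≤ (y + m) / m := Nat.div_le_div_right this
        _ = y / m + 1 := Nat.add_div_right _ hm0
    have hq : d / m < C := by
      rw [Nat.div_lt_iff_lt_mul hm0]
      exact hD.base.hi d hd
    rw [mem_biUnion]
    refine ⟨(a / m - y / m, d / m), ?_, ?_⟩
    · rw [mem_product, mem_range, mem_range]
      exact ⟨by omega, hq⟩
    · rw [mem_image]
      simp only
      have e2 : y / m + (a / m - y / m) - d / m = t := by omega
      rw [e2]
      refine ⟨d, ?_, hdt⟩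
      rw [mem_filter]
      exact ⟨hd, by omega, by omega⟩
  refine (card_le_card hsub).trans ?_
  refine (card_biUnion_le_card_mul _ _ C ?_).trans (by simp)
  intro vq _
  exact card_image_le.trans (hD.wnd _)

end Pool.Agent.H601.N1
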